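import Pool.Agent.Helper43.CH6.Asm
import Pool.Agent.Helper43.RK.Final
import Pool.Agent.Helper67.TK.Main
import Pool.Agent.Helper45.AS.TypeSer

/-!
# The orders of Artin `L`-functions and of zeta functions of subfields

Let `F 0 ≤ F 1 ≤ ... ≤ F r = N` be Galois extensions of a number field `K`. Each layer `Gal(F (i+1)/F i)` is
solvable, or `Factors B`: its nonabelian composition factors are alternating, or `PSL_m(k)` with `m ≤ B` and
any finite field `k`, or of order at most `B` (every layer is of this kind for some `B`), or `Large n`: there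
is a series of normal subgroups of `Gal(F (i+1)/K)` from `Gal(F (i+1)/F i)` down to the trivial group whose
layers are direct products of alternating groups of degree at least `n`, or abelian groups all of whose
nontrivial characters have at least `n` conjugates under `Gal(F (i+1)/K)`, or groups of order two which make a
double cover of an alternating group of degree at least `n`; or all its quotients have trivial centre and all
its nonabelian composition factors are alternating of degree at least `n`. The group `Gal(F 0/K)` is
arbitrary. The constant `C B` does not depend on `r`, the number of the composition factors, the degrees of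
the alternating groups and the fields `k`.

There are constants `C B`, and for every `ε > 0` a number `n`, such that
`∏ i, (ζ_{F (i+1)}/ζ_{F i})^(a i) * (L(s,ρ)/L(s,τ))^b` is entire for all these fields, all representations `ρ`,
`τ` of `Gal(N/K)` without nonzero vectors fixed by `Gal(N/F 0)`, and all `a` with `a i ≥ c i * b ‖χ_ρ - χ_τ‖`,
where `c i` is `1`, `C B`, `ε` for the three kinds of layers, the norm being the quadratic mean. Equivalently,
the sum of the squares of the orders of the Artin `L`-functions of the irreducible characters of `Gal(N/K)`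
which do not come from `Gal(F 0/K)` is at every point at most the square of the sum of the
`c i * ord(ζ_{F (i+1)}/ζ_{F i})`. The orders of the zeros and poles of `ζ_L/ζ_{L ∩ F 0}`, `L` any field between
`K` and `N`, are at most this sum, with `ε √d` instead of `ε`, where `d` is the number of double cosets of
`Gal(N/L)` in `Gal(N/K)`; for the poles the sum is only over the layers which are not solvable. With `F 0 = K`
this is a bound for the poles of `ζ_L/ζ_K`.

Proof. Let `θ` be the class function of the orders of the Artin `L`-functions at a point, and `θ_X` its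
average over the cosets of the normal subgroup `X`. For a layer `Y/X` of normal subgroups, `θ_X - θ_Y` is
bounded in quadratic mean by `ε (θ_X - θ_Y)(1)` if the layer is `Large n`, and at every element by
`C (θ_X - θ_Y)(1)` if it is `Factors B`, with `C = 1` if it is solvable; if `Y/X` is solvable then also the
average of `θ` over `H X` is at least its average over `H Y`, for every subgroup `H`. The sum over the layers
gives the theorem. For `T^k`, `T`
simple, the elements of a coset are products over the cycles of the action on the factors; on a cycle of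
length `l ≥ 2` the function changes by at most `C / o` times its value at the identity if the cycle product
`y` is replaced by `y e`, where `e` is in an abelian group `A` normalised by `y` such that the nontrivial
characters of `A` have at least `o` conjugates under its normaliser. For `T` alternating, with `A` the group
of all even permutations which preserve the cycles of a power of `y` of prime order, the cycles of `y` are
split until `y` is the identity or a transposition. For `T` of order at most `B` solvable groups `A`
normalised by `y` are used: the steps `y ↦ y e` connect all elements of the coset, since the number of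
elements of a component is divisible by the order of every Sylow subgroup of `T`. For `T = PSL_m(k)`
subgroups `A` whose nonabelian composition factors are `PSL_j(k')`, `j < m`, are used, by induction on `m`. If
`y` commutes with some `s` in `T` of prime order then it normalises the centraliser of `s`, which has such
composition factors: it is given by the units of the centraliser algebra of a matrix. The number of the
classes of unipotent elements of prime order is bounded; for the other `s` the number of the classes of
centralisers is bounded, and so is the index of the centraliser in its normaliser, since the conjugates of `s`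
with the same centraliser are roots of a separable polynomial in the algebra `k[s]`. So a bounded number of
steps connects all elements of the coset, unless it is one conjugacy class. The cost of a step is bounded:
every element of `T` is in a solvable group `A`, given by matrices which stabilise a flag and act on the
quotients as elements of fields, and three quarters of the elements of `A` have a separable characteristic
polynomial and a bounded number of fixed points in `T / A`.
-/

set_option autoImplicit false

open NumberField Equiv Pool.Agent.Helper94.Pr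

namespace Pool.Agent.Results.MP_9fc8a5_nt.ArtinSquares

/-- The function `f` on the half plane `Re s > 1` extends to an entire function. -/
def IsEntire (f : ℂ → ℂ) : Prop :=
  ∃ g : ℂ → ℂ, Differentiable ℂ g ∧ ∀ s : ℂ, 1 < s.re → g s = f s

section

variable {G : Type} [Group G]

/-- `Y / X` is isomorphic to a direct product of alternating groups of degree at least `n`. -/
def AltLayer (n : ℕ) (X Y : Subgroup G) : Prop :=
  ∃ (k : ℕ) (m : Fin k → ℕ) (f : Y →* ∀ i, alternatingGroup (Fin (m i))),
    (∀ i, n ≤ m i) ∧ Function.Surjective f ∧ f.ker = X.subgroupOf Y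

/-- `Y / X` is abelian, and every nontrivial homomorphism from `Y / X` to `ℂˣ` has at least `n`
conjugates under `G`. -/
def AbLayer (n : ℕ) (X Y : Subgroup G) [Y.Normal] : Prop :=
  (∀ x ∈ Y, ∀ y ∈ Y, x * y * x⁻¹ * y⁻¹ ∈ X) ∧
    ∀ l : Y →* ℂˣ, l ≠ 1 → (∀ x : Y, (x : G) ∈ X → l x = 1) →
      n ≤ (Set.range fun g : G => l.comp (MulAut.conjNormal g : MulAut Y).toMonoidHom).ncard

/-- `Y / X` has order two, there is a normal subgroup `Z` of `G` containing `Y` such that `Z / Y` is
isomorphic to an alternating group of degree at least `n`, and no element of `Z / X` over a product of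
two disjoint transpositions has order two: `Z / X` is a double cover of the alternating group. -/
def SpinLayer (n : ℕ) (X Y : Subgroup G) : Prop :=
  ∃ (Z : Subgroup G) (m : ℕ) (f : Z →* alternatingGroup (Fin m)),
    Z.Normal ∧ Y ≤ Z ∧ X.relIndex Y = 2 ∧ n ≤ m ∧ Function.Surjective f ∧ f.ker = Y.subgroupOf Z ∧
      ∀ z : Z, (f z : Perm (Fin m)).cycleType = {2, 2} → (z : G) ^ 2 ∉ X

/-- There is a series of normal subgroups of `G` from `M` down to `X` whose layers are `AltLayer`,
`AbLayer` or `SpinLayer`. -/
inductive Series (n : ℕ) (M : Subgroup G) : Subgroup G → Prop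
  | base : Series n M M
  | alt {X Y : Subgroup G} (h : Series n M Y) (hX : X.Normal) (hXY : X ≤ Y)
      (hl : AltLayer n X Y) : Series n M X
  | ab {X Y : Subgroup G} (h : Series n M Y) (hX : X.Normal) (hXY : X ≤ Y) (hY : Y.Normal)
      (hl : AbLayer n X Y) : Series n M X
  | spin {X Y : Subgroup G} (h : Series n M Y) (hX : X.Normal) (hXY : X ≤ Y)
      (hl : SpinLayer n X Y) : Series n M X

/-- The number of orbits of `H` on `G / H`, i.e. of double cosets of `H` in `G`. -/
noncomputable def rank (H : Subgroup G) : ℕ := Nat.card (MulAction.orbitRel.Quotient H (G ⧸ H))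

end

/-- `X` is an alternating group of degree at least `n`. -/
def Alt (n : ℕ) (X : Type) [Group X] : Prop := ∃ m, n ≤ m ∧ Nonempty (X ≃* alternatingGroup (Fin m))

/-- `X` is an alternating group, or `PSL_m(F)` for a finite field `F` and `m ≤ B`, or has order at most
`B`. -/
def AltLinSmall (B : ℕ) (X : Type) [Group X] : Prop :=
  Alt 0 X ∨ (∃ (m : ℕ) (F : Type) (_ : Field F) (_ : Finite F), m ≤ B ∧
    Nonempty (X ≃* Matrix.ProjectiveSpecialLinearGroup (Fin m) F)) ∨ Nat.card X ≤ B

/-- Every nonabelian composition factor of `M`, i.e. every nonabelian simple group `Y / X` with `Y` subnormal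
in `M` and `X` normal in `Y`, has the property `P`. -/
def CompFactors (P : ∀ (X : Type) [Group X], Prop) (M : Type) [Group M] : Prop :=
  ∀ X Y : Subgroup M, X ≤ Y → ∀ _ : (X.subgroupOf Y).Normal, Y.IsSubnormal →
    IsSimpleGroup (Y ⧸ X.subgroupOf Y) → (∃ x y : Y ⧸ X.subgroupOf Y, x * y ≠ y * x) →
      P (Y ⧸ X.subgroupOf Y)

/-- Every quotient of `M` has trivial centre. -/
def NoCentre (M : Type) [Group M] : Prop :=
  ∀ X : Subgroup M, ∀ _ : X.Normal, Subgroup.center (M ⧸ X) = ⊥

section

variable {K N : Type} [Field K] [Field N] [Algebra K N]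

/-- The group `Gal(F/E)` of the restrictions to `F` of the elements of `Gal(N/E)`. -/
noncomputable def gal (E F : IntermediateField K N) [Normal K F] : Subgroup (F ≃ₐ[K] F) :=
  E.fixingSubgroup.map (AlgEquiv.restrictNormalHom (F := K) (K₁ := N) F)

/-- Every nonabelian composition factor of `Gal(F/E)` is an alternating group, or `PSL_m` of a finite field,
`m ≤ B`, or has order at most `B`. -/
def Factors (B : ℕ) (E F : IntermediateField K N) [Normal K F] : Prop :=
  CompFactors (AltLinSmall B) (gal E F)

/-- There is a series of normal subgroups of `Gal(F/K)` from `Gal(F/E)` down to the trivial group whose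
layers are `AltLayer`, `AbLayer` or `SpinLayer`; or every quotient of `Gal(F/E)` has trivial centre and
its nonabelian composition factors are alternating groups of degree at least `n`. -/
def Large (n : ℕ) (E F : IntermediateField K N) [Normal K F] : Prop :=
  Series n (gal E F) ⊥ ∨ (NoCentre (gal E F) ∧ CompFactors (Alt n) (gal E F))

/-- `Gal(F/E)` is solvable and `x b ≤ a`, or `Factors B` and `C x b ≤ a`, or `Large n` and `ε y b ≤ a`. -/
def Enough (C B n : ℕ) (ε x y : ℝ) (E F : IntermediateField K N) [Normal K F] (a b : ℕ) : Prop :=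
  (Group.IsSolvable (gal E F) ∧ x * b ≤ a) ∨ (Factors B E F ∧ C * x * b ≤ a) ∨
    (Large n E F ∧ ε * y * b ≤ a)

/-- Only the zero vector is fixed by `Gal(N/E)`. -/
def NoFixedVector {V : Type} [AddCommGroup V] [Module ℂ V] (E : IntermediateField K N)
    (ρ : Representation ℂ (N ≃ₐ[K] N) V) : Prop :=
  ∀ v : V, (∀ g ∈ E.fixingSubgroup, ρ g v = v) → v = 0

end

/-- The product of the `(ζ_{F (i+1)}/ζ_{F i}) ^ a i`. -/
noncomputable def P {K N : Type} [Field K] [NumberField K] [Field N] [NumberField N] [Algebra K N]
    {r : ℕ} (F : Fin (r + 1) → IntermediateField K N) (a : Fin r → ℕ) (s : ℂ) : ℂ :=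
  ∏ i : Fin r, (dedekindZeta (F i.succ) s / dedekindZeta (F i.castSucc) s) ^ a i

/-- The distance of the characters of `ρ` and `τ` in quadratic mean. -/
noncomputable def dist {G V W : Type} [Group G] [AddCommGroup V] [Module ℂ V] [AddCommGroup W]
    [Module ℂ W] (ρ : Representation ℂ G V) (τ : Representation ℂ G W) : ℝ :=
  Real.sqrt ((∑ᶠ g, ‖LinearMap.trace ℂ V (ρ g) - LinearMap.trace ℂ W (τ g)‖ ^ 2) / Nat.card G)

section

variable {K N : Type} [Field K] [NumberField K] [Field N] [NumberField N] [Algebra K N]
  [IsGalois K N] {r : ℕ}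

/-- `P` times the power of `L(s,ρ)/L(s,τ)` is entire if `Enough` holds for every layer, with the distance of
the characters. -/
def Artin (C B n : ℕ) (ε : ℝ) (F : Fin (r + 1) → IntermediateField K N) [∀ i, IsGalois K (F i)]
    (a : Fin r → ℕ) (b : ℕ) : Prop :=
  ∀ (V W : Type) [AddCommGroup V] [Module ℂ V] [FiniteDimensional ℂ V] [AddCommGroup W] [Module ℂ W]
    [FiniteDimensional ℂ W] (ρ : Representation ℂ (N ≃ₐ[K] N) V)
    (τ : Representation ℂ (N ≃ₐ[K] N) W), NoFixedVector (F 0) ρ → NoFixedVector (F 0) τ →
    (∀ i : Fin r, Enough C B n ε (dist ρ τ) (dist ρ τ) (F i.castSucc) (F i.succ) (a i) b) →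
    IsEntire fun s => P F a s * (artinFun ρ s / artinFun τ s) ^ b

/-- For all fields `L`: `P` times the power of `ζ_L/ζ_{L ∩ F 0}` is entire if every layer is solvable or
`Enough` holds, and `P` times the power of `ζ_{L ∩ F 0}/ζ_L` is entire if `Enough` holds for every layer, with
the square root of the rank. -/
def Zeta (C B n : ℕ) (ε : ℝ) (F : Fin (r + 1) → IntermediateField K N) [∀ i, IsGalois K (F i)]
    (a : Fin r → ℕ) (b : ℕ) : Prop :=
  ∀ L : IntermediateField K N,
    ((∀ i : Fin r, Group.IsSolvable (gal (F i.castSucc) (F i.succ)) ∨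
        Enough C B n ε 1 (Real.sqrt (rank L.fixingSubgroup)) (F i.castSucc) (F i.succ) (a i) b) →
      IsEntire fun s =>
        P F a s * (dedekindZeta L s / dedekindZeta (L ⊓ F 0 : IntermediateField K N) s) ^ b) ∧
    ((∀ i : Fin r, Enough C B n ε 1 (Real.sqrt (rank L.fixingSubgroup)) (F i.castSucc)
        (F i.succ) (a i) b) →
      IsEntire fun s =>
        P F a s * (dedekindZeta (L ⊓ F 0 : IntermediateField K N) s / dedekindZeta L s) ^ b)

end

lemma ser_of {G : Type} [Group G] {n m : ℕ} (hnm : m ≤ n) {M X : Subgroup G} (h : Series n M X) :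
    Pool.Agent.Helper88.AS.Ser m M X := by
  induction h with
  | base => exact Pool.Agent.Helper88.AS.Ser.base
  | alt h hX hXY hl ih =>
    obtain ⟨k, d, f, h1, h2⟩ := hl
    exact Pool.Agent.Helper88.AS.Ser.alt ih hX hXY ⟨k, d, f, fun i => hnm.trans (h1 i), h2⟩
  | ab h hX hXY hY hl ih =>
    exact Pool.Agent.Helper88.AS.Ser.ab ih hX hXY hY
      ⟨hl.1, fun l h1 h2 => hnm.trans (hl.2 l h1 h2)⟩
  | spin h hX hXY hl ih =>
    obtain ⟨Z, d, f, h1, h2, h3, h4, h5⟩ := hl
    exact Pool.Agent.Helper88.AS.Ser.spin ih hX hXY ⟨Z, d, f, h1, h2, h3, hnm.trans h4, h5⟩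

lemma ser_mono {G : Type} [Group G] {n m : ℕ} (hnm : m ≤ n) {M X : Subgroup G}
    (h : Pool.Agent.Helper88.AS.Ser n M X) : Pool.Agent.Helper88.AS.Ser m M X := by
  induction h with
  | base => exact Pool.Agent.Helper88.AS.Ser.base
  | alt h hX hXY hl ih =>
    obtain ⟨k, d, f, h1, h2⟩ := hl
    exact Pool.Agent.Helper88.AS.Ser.alt ih hX hXY ⟨k, d, f, fun i => hnm.trans (h1 i), h2⟩
  | ab h hX hXY hY hl ih =>
    exact Pool.Agent.Helper88.AS.Ser.ab ih hX hXY hY
      ⟨hl.1, fun l h1 h2 => hnm.trans (hl.2 l h1 h2)⟩
  | spin h hX hXY hl ih =>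
    obtain ⟨Z, d, f, h1, h2, h3, h4, h5⟩ := hl
    exact Pool.Agent.Helper88.AS.Ser.spin ih hX hXY ⟨Z, d, f, h1, h2, h3, hnm.trans h4, h5⟩

lemma large_ser {n m : ℕ} (hn : 5 ≤ n) (hnm : m ≤ n) {G : Type} [Group G] [Finite G]
    (M : Subgroup G) [M.Normal] (h : Series n M ⊥ ∨ (NoCentre M ∧ CompFactors (Alt n) M)) :
    Pool.Agent.Helper88.AS.Ser m M ⊥ := by
  rcases h with h | ⟨h1, h2⟩
  · exact ser_of hnm h
  · have h3 : Pool.Agent.Helper81.AS.TypeN n M := ⟨h2, h1⟩
    exact ser_mono hnm (Pool.Agent.Helper45.AS.type_ser hn M h3)

lemma lay_of {C B n m : ℕ} {ε x y : ℝ} (hn : 5 ≤ n) (hnm : m ≤ n) {K N : Type} [Field K]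
    [NumberField K] [Field N] [NumberField N] [Algebra K N] [IsGalois K N]
    (E F : IntermediateField K N) [IsGalois K E] [IsGalois K F] {a b : ℕ}
    (h : Enough C B n ε x y E F a b) :
    Pool.Agent.Helper43.CH6.Lay (Pool.Agent.Helper43.RK.P4 B) C m ε x y E F a b := by
  rcases h with h | ⟨h1, h2⟩ | ⟨h1, h2⟩
  · exact Or.inl h
  · refine Or.inr (Or.inl ⟨?_, h2⟩)
    intro X Y hXY hX hY hs hna
    rcases h1 X Y hXY hX hY hs hna with ⟨m, -, h4⟩ | ⟨m, k, i1, i2, h4, h5⟩ | h4
    · exact Or.inr (Or.inl ⟨m, h4⟩)
    · exact Or.inr (Or.inr ⟨m, k, i1, i2, h4, h5⟩)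
    · exact Or.inl h4
  · have hN : (gal E F).Normal :=
      Subgroup.Normal.map inferInstance _ (AlgEquiv.restrictNormalHom_surjective N)
    exact Or.inr (Or.inr ⟨large_ser hn hnm (gal E F) h1, h2⟩)

theorem result : ∃ C : ℕ → ℕ, ∀ ε : ℝ, 0 < ε → ∃ n : ℕ, ∀ (B : ℕ) (K N : Type) [Field K]
    [NumberField K] [Field N] [NumberField N] [Algebra K N] [IsGalois K N] (r : ℕ)
    (F : Fin (r + 1) → IntermediateField K N) [∀ i, IsGalois K (F i)], Monotone F →
    F (Fin.last r) = ⊤ → ∀ (a : Fin r → ℕ) (b : ℕ),
      Artin (C B) B n ε F a b ∧ Zeta (C B) B n ε F a b := by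
  obtain ⟨C, hC⟩ := Pool.Agent.Helper43.CH6.chain_P Pool.Agent.Helper67.TK.mainThm
    (Pool.Agent.Helper43.RK.main4 Pool.Agent.Helper43.RK.orbLin')
  refine ⟨C, fun ε hε => ?_⟩
  obtain ⟨n, hn⟩ := hC ε hε
  refine ⟨max 5 n, ?_⟩
  intro B K N _ _ _ _ _ _ r F _ hF hl a b
  obtain ⟨h1, h2⟩ := hn B r F hF hl a b
  refine ⟨?_, fun L => ⟨?_, ?_⟩⟩
  · intro V W _ _ _ _ _ _ ρ τ hρ hτ h
    exact h1 ρ τ hρ hτ fun i => lay_of (le_max_left 5 _) (le_max_right 5 _) _ _ (h i)
  · intro h
    exact (h2 L).1 fun i => (h i).imp id fun h3 =>
      lay_of (le_max_left 5 _) (le_max_right 5 _) _ _ h3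
  · intro h
    exact (h2 L).2 fun i => lay_of (le_max_left 5 _) (le_max_right 5 _) _ _ (h i)

end Pool.Agent.Results.MP_9fc8a5_nt.ArtinSquares
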