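import Pool.Agent.Helper70.WR.LO
import Pool.Agent.Helper3.TQ.Adm3
import Pool.Agent.Helper3.AR.Main

/-!
# Quotients of Dedekind zeta functions and the action on nonabelian composition factors

Let `N/K` be a Galois extension of number fields with group `G` and `L` an intermediate field such
that the group `H` of automorphisms fixing `L` is solvable; let `R` be a normal subgroup of `G`
containing the commutators of `H` (for instance `R = 1` if `H` is commutative, or `R = G`). Suppose
that on every nonabelian composition factor `B / A` of `G` which is not inside `R` the elements of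
`H` normalising `A` and `B` act trivially, or `TiledOn`, `AlternatingOn` or `LargeOn` holds, and that
one of the last three holds for those inside `R`. Then `ζ_L / ζ_K` is entire. `LargeOn`: the factor
is an alternating group of degree at least `C |H|` and `H` acts on it through even permutations
forming a solvable `Admissible` group (for instance, any group of odd order).
-/

set_option autoImplicit false

open NumberField Equiv Equiv.Perm Pool.Agent.Helper70.Art Pool.Agent.Helper3.Comp
  Pool.Agent.Helper37.Alt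

namespace Pool.Agent.Results.MP_9fc8a5_nt.ComponentAction

/-- Every cycle length of `x` (at least two) occurs an even number of times. -/
def EvenCycles {n : ℕ} (x : Perm (Fin n)) : Prop := ∀ d, Even (x.cycleType.count d)

/-- Elements of 2-power order commute with elements of odd order. -/
def TwoOdd (P : Type) [Group P] : Prop :=
  ∀ x y : P, (∃ r : ℕ, x ^ (2 ^ r) = 1) → Odd (orderOf y) → x * y = y * x

open Classical in
/-- The sum of `2 ^ (l - m)` over all `x ∈ H` without `EvenCycles` which move `m < C` points and have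
`l` nontrivial cycles. -/
noncomputable def weight (C : ℕ) {n : ℕ} (H : Subgroup (Perm (Fin n))) : ℝ :=
  ∑ x ∈ Finset.univ.filter
    (fun x : Perm (Fin n) => x ∈ H ∧ x.support.card < C ∧ ¬ EvenCycles x),
    (1 / 2 : ℝ) ^ (x.support.card - Multiset.card x.cycleType)

/-- `H` consists of at most `h` even permutations, and (a) its weight is less than one, or (b) there
are a subgroup `O`, a set `S` of points and a solvable group `P` of even permutations of `S` with
`TwoOdd`, such that each `x ∈ H` moving less than `C` points has `EvenCycles` if `x ∉ O`, and is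
`a b` with `a ∈ P` and a permutation `b` of the complement of `S` with `EvenCycles` if `x ∈ O`, or
(c) `H` has at most 11 elements or is isomorphic to the alternating group of degree four. -/
def Admissible (h C : ℕ) {n : ℕ} (H : Subgroup (Perm (Fin n))) : Prop :=
  Nat.card H ≤ h ∧ (∀ x ∈ H, sign x = 1) ∧
    (weight C H < 1 ∨
      (∃ (O : Subgroup (Perm (Fin n))) (S : Finset (Fin n)) (P : Subgroup (Perm (Fin n))),
        (∀ a ∈ P, sign a = 1 ∧ ∀ i, i ∉ S → a i = i) ∧ Group.IsSolvable P ∧ TwoOdd P ∧
        ∀ x ∈ H, C ≤ x.support.card ∨ (x ∉ O ∧ EvenCycles x) ∨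
          (x ∈ O ∧ ∃ a ∈ P, ∃ b : Perm (Fin n), x = a * b ∧ (∀ i ∈ S, b i = i) ∧
            EvenCycles b)) ∨
      Nat.card H ≤ 11 ∨ Nonempty (H ≃* alternatingGroup (Fin 4)))

lemma admG_of_admissible {h C n : ℕ} {H : Subgroup (Perm (Fin n))} (hH : Admissible h C H) :
    Pool.Agent.Helper3.TQ.AdmG h C H := by
  obtain ⟨hc, hs, hw | ⟨O, S, P, hP, hsol, htwo, hx⟩ | h11 | ⟨⟨e⟩⟩⟩ := hH
  · exact Pool.Agent.Helper3.TQ.admG_of_wt H hc hs hw
  · refine Pool.Agent.Helper3.TQ.admG_of_outside H O hc hs S P hP hsol htwo ?_ ?_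
    · intro x hxH hxO
      rcases hx x hxH with h1 | ⟨h1, _⟩ | ⟨_, a, ha, b, hab, hb1, hb2⟩
      · exact Or.inl h1
      · exact absurd hxO h1
      · exact Or.inr ⟨a, ha, b, hab, hb1, hb2⟩
    · intro x hxH hxO
      rcases hx x hxH with h1 | ⟨_, h1⟩ | ⟨h1, _⟩
      · exact Or.inl h1
      · exact Or.inr h1
      · exact absurd h1 hxO
  · exact Pool.Agent.Helper3.TQ.admG_of_inv H hc hs (Pool.Agent.Helper3.TQ.inv_of_card_le h11)
  · exact Pool.Agent.Helper3.TQ.admG_of_four H hc hs e

/-- Through `κ : B → A_n` every element of `H` normalising `A` and `B` acts as conjugation by an element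
of `Y`. -/
def Acts {G : Type*} [Group G] (H A B : Subgroup G) {n : ℕ} (κ : B →* alternatingGroup (Fin n))
    (Y : Subgroup (Perm (Fin n))) : Prop :=
  ∀ g ∈ H, (∀ a ∈ A, g * a * g⁻¹ ∈ A) → (∀ b ∈ B, g * b * g⁻¹ ∈ B) →
    ∃ d ∈ Y, ∀ b b' : B, (b' : G) = g * b * g⁻¹ →
      (κ b' : Perm (Fin n)) = d * (κ b : Perm (Fin n)) * d⁻¹

/-- `B / A` is isomorphic (by a surjective homomorphism `κ` from `B` with kernel `A`) to the alternating
group of a degree `n ≥ C`, and there is a solvable admissible group `Y` of permutations of `n` points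
such that every element of `H` normalising `A` and `B` acts on `B / A` as conjugation by an element
of `Y`. -/
def LargeOn (C : ℕ) {G : Type*} [Group G] (H A B : Subgroup G) : Prop :=
  ∃ (n : ℕ) (κ : B →* alternatingGroup (Fin n)) (Y : Subgroup (Perm (Fin n))), C ≤ n ∧
    Function.Surjective κ ∧ (∀ b : B, κ b = 1 ↔ (b : G) ∈ A) ∧ Admissible (Nat.card H) C Y ∧
    Group.IsSolvable Y ∧ Acts H A B κ Y

/-- The hypothesis on the nonabelian composition factors `B / A` of `G`: `LargeOn`, `TiledOn` or
`AlternatingOn`, or `H` acts trivially and `B` is not inside `R`. -/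
def Factors (C : ℕ) {G : Type*} [Group G] (H R : Subgroup G) : Prop :=
  ∀ A B : Subgroup G, A ≤ B → ∀ _ : (A.subgroupOf B).Normal, B.IsSubnormal →
    IsSimpleGroup (B ⧸ A.subgroupOf B) → (∃ x y : B ⧸ A.subgroupOf B, x * y ≠ y * x) →
      LargeOn C H A B ∨ (TiledOn H A B ∨ AlternatingOn H A B) ∨ (TrivialOn H A B ∧ ¬ B ≤ R)

theorem result : ∃ C : ℕ → ℕ, ∀ {K N : Type} [Field K] [NumberField K] [Field N] [NumberField N]
    [Algebra K N] [IsGalois K N] (L : IntermediateField K N) (_ : Group.IsSolvable L.fixingSubgroup)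
    (R : Subgroup (N ≃ₐ[K] N)) (_ : R.Normal)
    (_ : ∀ a ∈ L.fixingSubgroup, ∀ b ∈ L.fixingSubgroup, a * b * a⁻¹ * b⁻¹ ∈ R)
    (_ : Factors (C (Nat.card L.fixingSubgroup)) L.fixingSubgroup R),
    ∃ g : ℂ → ℂ, Differentiable ℂ g ∧
      ∀ s : ℂ, 1 < s.re → g s = dedekindZeta L s / dedekindZeta K s := by
  choose C hC using fun h => Pool.Agent.Helper70.WR.ded_final_large h
  refine ⟨C, ?_⟩
  intro K N _ _ _ _ _ _ L hL R hRn hR hS
  refine Pool.Agent.Helper3.AR.entire_of_ded L ?_
  refine hC (Nat.card L.fixingSubgroup) L.fixingSubgroup R hL le_rfl hR ?_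
  intro A B hAB hn hB hs hna
  rcases hS A B hAB hn hB hs hna with ⟨n, κ, Y, h1, h2, h3, h4, h5, h6⟩ | h
  · exact Or.inl ⟨n, Y, h1, admG_of_admissible h4, h5, κ, h2, h3, h6⟩
  · exact Or.inr h

end Pool.Agent.Results.MP_9fc8a5_nt.ComponentAction
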