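import Pool.Agent.Helper94.Pr.Eul
import Pool.Agent.Helper94.Pr.LowE

/-!
# Artin's and Dedekind's conjectures for almost all extensions with a given group

Let `G` be a finite group. In every Galois extension `N/k` of number fields with group `A_n`, `n` large,
for almost all intermediate fields `K` such that `N/K` has group `G`, all Artin `L`-functions of
representations of `Gal(N/K)` without fixed vectors are entire, and the quotient `ζ_L/ζ_F` is entire
for all fields `K ≤ F ≤ L ≤ N`, for all `F`, `L` between `K` and `N` with `[F:K] < [L:K]`, and for all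
`L` between `K` and `N` and all `F` of small degree over `k`, for example `F = k`. Every number field `k`
has an extension `K` with such a Galois extension `N/K`.
-/

set_option autoImplicit false

open NumberField Equiv Pool.Agent.Helper94.Pr

namespace Pool.Agent.Results.MP_9fc8a5_nt.EveryGroup

/-- The quotient `f/g` of two functions on the half plane `Re s > 1` extends to an entire function. -/
def EntireQuot (f g : ℂ → ℂ) : Prop :=
  ∃ e : ℂ → ℂ, Differentiable ℂ e ∧ ∀ s : ℂ, 1 < s.re → e s = f s / g s

/-- The quotient `ζ_L/ζ_F` is entire for all fields `F`, `L` between `K` and `N` with `F ≤ L` or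
`[F:K] < [L:K]`. -/
def ZetaPairs (K N : Type) [Field K] [NumberField K] [Field N] [NumberField N] [Algebra K N] :
    Prop :=
  ∀ F L : IntermediateField K N, F ≤ L ∨ Module.finrank K F < Module.finrank K L →
    EntireQuot (dedekindZeta L) (dedekindZeta F)

/-- The representations `ρ` and `τ` have fixed spaces of the same dimension, and
`|tr ρ(g) - tr τ(g)| ≤ M (dim ρ - dim τ)` for all `g`. -/
def Larger (M : ℕ) {G V W : Type} [Group G] [AddCommGroup V] [Module ℂ V] [AddCommGroup W]
    [Module ℂ W] (ρ : Representation ℂ G V) (τ : Representation ℂ G W) : Prop :=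
  Module.finrank ℂ ρ.invariants = Module.finrank ℂ τ.invariants ∧
    ∀ g, ‖LinearMap.trace ℂ V (ρ g) - LinearMap.trace ℂ W (τ g)‖ ≤
      M * ((Module.finrank ℂ V : ℝ) - Module.finrank ℂ W)

/-- The quotient `L(s, ρ)/L(s, τ)` of Artin `L`-functions is entire for all finite-dimensional
complex representations `ρ`, `τ` of `Gal(N/K)` with `Larger M ρ τ`. -/
def ArtinPairs (M : ℕ) (K N : Type) [Field K] [NumberField K] [Field N] [NumberField N]
    [Algebra K N] [IsGalois K N] : Prop :=
  ∀ {V W : Type} [AddCommGroup V] [Module ℂ V] [FiniteDimensional ℂ V] [AddCommGroup W]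
    [Module ℂ W] [FiniteDimensional ℂ W] (ρ : Representation ℂ (N ≃ₐ[K] N) V)
    (τ : Representation ℂ (N ≃ₐ[K] N) W), Larger M ρ τ → EntireQuot (artinFun ρ) (artinFun τ)

/-- `N/K` is a Galois extension with group isomorphic to `G`, and `ZetaPairs`, `ArtinPairs M` hold. -/
def Dominated (G : Type) [Group G] (M : ℕ) (K N : Type) [Field K] [NumberField K] [Field N]
    [NumberField N] [Algebra K N] : Prop :=
  Nonempty ((N ≃ₐ[K] N) ≃* G) ∧ ZetaPairs K N ∧ ∃ _ : IsGalois K N, ArtinPairs M K N

/-- The quotient `ζ_L/ζ_F` is entire for all fields `L` between `K` and `N` and all fields `F` between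
`k` and `N` with `[F:k] ≤ [N:k] ^ η`. -/
def LowPairs (η : ℝ) (k N : Type) [Field k] [NumberField k] [Field N] [NumberField N]
    [Algebra k N] (K : IntermediateField k N) : Prop :=
  ∀ (L : IntermediateField K N) (F : IntermediateField k N),
    (Module.finrank k F : ℝ) ≤ (Module.finrank k N : ℝ) ^ η →
      EntireQuot (dedekindZeta L) (dedekindZeta F)

/-- The number of fields `K` between `k` and `N` such that `N/K` has group isomorphic to `G`. -/
noncomputable def total (G : Type) [Group G] (k N : Type) [Field k] [Field N] [Algebra k N] : ℕ :=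
  Nat.card {K : IntermediateField k N // Nonempty ((N ≃ₐ[K] N) ≃* G)}

/-- The number of fields `K` between `k` and `N` with `Dominated G M K N` and `LowPairs η k N K`. -/
noncomputable def good (G : Type) [Group G] (M : ℕ) (η : ℝ) (k N : Type) [Field k]
    [NumberField k] [Field N] [NumberField N] [Algebra k N] : ℕ :=
  Nat.card {K : IntermediateField k N // Dominated G M K N ∧ LowPairs η k N K}

lemma dominated_of_good {M : ℕ} {K N : Type} [Field K] [NumberField K] [Field N] [NumberField N]
    [Algebra K N] [hgal : IsGalois K N] {G : Type} [Group G] (i : (N ≃ₐ[K] N) ≃* G)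
    (h : LinGood (M + 2 * Nat.card G) K N) :
    Dominated G M K N := by
  rw [← Nat.card_congr i.toEquiv] at h
  exact ⟨⟨i⟩, fun F L hFL => h.pair (Nat.le_add_left _ _) F L hFL, hgal,
    fun ρ τ hρ => (h.mono (Nat.le_add_right _ _)).rep ρ τ hρ.1 hρ.2⟩

theorem result (G : Type) [Group G] [Finite G] (M : ℕ) :
    (∃ η : ℝ, 0 < η ∧ ∀ ε : ℝ, 0 < ε → ∃ C : ℕ, ∀ n ≥ C, ∀ (k N : Type) [Field k]
      [NumberField k] [Field N] [NumberField N] [Algebra k N] [IsGalois k N]
      (_ : (N ≃ₐ[k] N) ≃* alternatingGroup (Fin n)),
      (1 - ε) * total G k N < good G M η k N) ∧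
    ∀ (k : Type) [Field k] [NumberField k],
      ∃ (K N : Type) (_ : Field K) (_ : NumberField K) (_ : Field N) (_ : NumberField N)
        (_ : Algebra k K) (_ : Algebra K N), Dominated G M K N ∧
          ∀ L : IntermediateField K N, EntireQuot (dedekindZeta L) (dedekindZeta k) := by
  constructor
  · obtain ⟨η, hη, hall⟩ := almost_all2 G (M + 2 * Nat.card G)
    refine ⟨η, hη, ?_⟩
    intro ε hε
    obtain ⟨C, hC⟩ := hall ε hε
    refine ⟨C, ?_⟩
    intro n hn k N _ _ _ _ _ _ e
    have h1 := hC n hn e
    have hfin : Finite (IntermediateField k N) :=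
      Finite.of_injective (fun K => K.fixingSubgroup) (fun K K' h => by
        have h2 := congrArg IntermediateField.fixedField h
        simp only at h2
        rwa [IsGalois.fixedField_fixingSubgroup, IsGalois.fixedField_fixingSubgroup] at h2)
    classical
    let P : IntermediateField k N → Prop := fun K => LinGood (M + 2 * Nat.card G) K N ∧
        ∀ (L : IntermediateField K N) (F : IntermediateField k N),
          (Module.finrank k F : ℝ) ≤ (Module.finrank k N : ℝ) ^ η →
          ∃ g : ℂ → ℂ, Differentiable ℂ g ∧
            ∀ s : ℂ, 1 < s.re → g s = dedekindZeta L s / dedekindZeta F s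
    have h2 : total G k N ≤ good G M η k N + Nat.card {K : IntermediateField k N //
        Nonempty ((N ≃ₐ[K] N) ≃* G) ∧ ¬ P K} := by
      unfold total good
      rw [← Nat.card_sum]
      refine Nat.card_le_card_of_injective
        (fun K => if hK : P K.1 then
          Sum.inl ⟨K.1, dominated_of_good K.2.some hK.1, hK.2⟩ else Sum.inr ⟨K.1, K.2, hK⟩) ?_
      intro K K' h
      simp only at h
      by_cases hK : P K.1
      · by_cases hK' : P K'.1
        · rw [dif_pos hK, dif_pos hK'] at h
          have h3 := congrArg Subtype.val (Sum.inl_injective h)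
          exact Subtype.ext h3
        · rw [dif_pos hK, dif_neg hK'] at h
          exact absurd h Sum.inl_ne_inr
      · by_cases hK' : P K'.1
        · rw [dif_neg hK, dif_pos hK'] at h
          exact absurd h Sum.inr_ne_inl
        · rw [dif_neg hK, dif_neg hK'] at h
          have h3 := congrArg Subtype.val (Sum.inr_injective h)
          exact Subtype.ext h3
    have h3 : (total G k N : ℝ) ≤ good G M η k N + Nat.card {K : IntermediateField k N //
        Nonempty ((N ≃ₐ[K] N) ≃* G) ∧ ¬ P K} := by exact_mod_cast h2
    unfold total at h3 ⊢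
    linarith
  · intro k _ _
    obtain ⟨K, N, _, _, _, _, _, _, _, ⟨i⟩, h, hL⟩ := exists_over2 G (M + 2 * Nat.card G) k
    exact ⟨K, N, inferInstance, inferInstance, inferInstance, inferInstance, inferInstance,
      inferInstance, dominated_of_good i h, hL⟩

end Pool.Agent.Results.MP_9fc8a5_nt.EveryGroup
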