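import Pool.Agent.Helper81.TW.Ser
import Pool.Agent.Helper94.GX.Final

/-!
# The poles of the quotient of two Dedekind zeta functions and chains of Galois subextensions

Let `N/K` be a Galois extension of number fields with arbitrary Galois group, `z` a point and
`F 0 ≤ F 1 ≤ ... ≤ F r = N` a chain of Galois extensions of `K`. A layer `F (i+1) / F i` is small at
`z` in each of the following cases, where `d` is the order of `ζ_(F (i+1)) / ζ_(F i)` at `z`: `d = 0`;
`Gal(F (i+1) / F i)` has a subnormal series whose factors are alternating groups of degree `m` with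
`d < c m`, or quotients of `SL_m(q)`, `m` at least the characteristic, with `6 * d < q ^ (m - 1)`;
`Gal(F (i+1) / F i)` is perfect, its nonabelian composition factors are alternating groups of degree
at least `n ≥ 8` and `d < c n`. Here `c n / n → 1`.

If every layer is solvable or small then `ζ_L / ζ_(L ∩ F 0)` is holomorphic at `z` for all fields `L`
between `K` and `N`. With `F 0 = K`: every pole of `ζ_L / ζ_K` is a zero of `ζ_(F (i+1)) / ζ_(F i)`
for a layer which is not solvable.

If every layer is small, then `L(s, ρ)` is holomorphic and nonzero at `z` for every representation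
`ρ` of `Gal(N/K)` without nonzero vectors fixed by `Gal(N/F 0)`, the orders of `ζ_L` and
`ζ_(L ∩ F 0)` are equal, and `ζ_L / ζ_E` is holomorphic at `z` for all `E ≤ L` if `Gal(F 0 / K)` is
solvable.

Proof. A Heilbronn function `θ` of a finite group which is constant on a normal subgroup `T` is
constant on every coset `x T` (an induction over the normalisers of the nontrivial `p`-subgroups of
`T` shows that a Sylow `p`-subgroup of `T` acts freely, by conjugation, on the elements of `x T` with
values different from one value). Solvable layers: if `S` is a solvable normal subgroup and `H` any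
subgroup of a finite group, the average of `θ` over `H S` is at most the average over `H`. If the
value at `1` of every nonconstant Heilbronn function of every factor of a subnormal series of `T`
exceeds the average by more than `d`, the same is true for `T`. For `SL_m(q)`, `q` a power of a prime
`p ≤ m`: a
Heilbronn function of `SL_m(q)` which takes its value at `1` also at the transvections is constant
(if `s` normalises an abelian group `C` and `θ` is maximal on `C s` then also on `C`; this is used for
the torus and a `p`-cycle, and for the elements of norm one of the field generated by an irreducible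
matrix and the Frobenius); if not, the difference of the two values is a multiple of `q ^ (m - 1)`,
since the characters of the radical of a point stabiliser are conjugate, and the function is smaller
than its value at `1` by almost as much at every matrix with a simple eigenvalue in `F_q` (for
`q = 2` a variant is used); a positive proportion of the matrices have one.

By the helpers 81, 77, 6, 13, 23, 43, 45, 67, 70, 74, 85, 88, 94 (groups), 55, 94, 70 (alternating groups), 3,
13, 70 (Artin-Hecke theory).
-/

set_option autoImplicit false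

open NumberField Filter Topology Pool.Agent.Helper94.Pr

namespace Pool.Agent.Results.MP_9fc8a5_nt.LowOrder

/-- The sum of `2 ^ i - 1` over the exponents `i ≥ 3` in the binary expansion of `n`. -/
def beta (n : ℕ) : ℕ := ∑ i ∈ n.bitIndices.toFinset.filter (3 ≤ ·), (2 ^ i - 1)

/-- The entire function `(s - 1) ζ_F(s)` vanishes to the order `m` at `z`. -/
def Ord (F : Type) [Field F] [NumberField F] (z : ℂ) (m : ℕ) : Prop :=
  ∃ Z : ℂ → ℂ, Differentiable ℂ Z ∧ (∀ s : ℂ, 1 < s.re → Z s = (s - 1) * dedekindZeta F s) ∧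
    analyticOrderAt Z z = m

/-- Every nonabelian composition factor `B / A` of `G` is an alternating group of degree at least
`n`. -/
def AltFactors (n : ℕ) (G : Type) [Group G] : Prop :=
  ∀ A B : Subgroup G, A ≤ B → ∀ _ : (A.subgroupOf B).Normal, B.IsSubnormal →
    IsSimpleGroup (B ⧸ A.subgroupOf B) → (∃ x y : B ⧸ A.subgroupOf B, x * y ≠ y * x) →
      ∃ m, n ≤ m ∧ Nonempty ((B ⧸ A.subgroupOf B) ≃* alternatingGroup (Fin m))

/-- `X` is an alternating group of degree `m` and `d < c m`, or a quotient of `SL_m(F)` for a finite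
field `F` whose characteristic is at most `m`, and `6 * d < |F| ^ (m - 1)`. -/
def Fac (c : ℕ → ℕ) (d : ℕ) (X : Type) [Group X] : Prop :=
  (∃ m, d < c m ∧ Nonempty (X ≃* alternatingGroup (Fin m))) ∨
    ∃ (m : ℕ) (F : Type) (_ : Field F) (_ : Finite F), ringChar F ≤ m ∧
      6 * d < Nat.card F ^ (m - 1) ∧
        ∃ f : Matrix.SpecialLinearGroup (Fin m) F →* X, Function.Surjective f

/-- There is a subnormal series from `G` down to the subgroup whose factors have the property
`Fac`. -/
inductive Series (c : ℕ → ℕ) (d : ℕ) {G : Type} [Group G] : Subgroup G → Prop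
  | top : Series c d ⊤
  | step {A B : Subgroup G} (h : Series c d B) (hAB : A ≤ B) (hA : (A.subgroupOf B).Normal)
      (hF : Fac c d (B ⧸ A.subgroupOf B)) : Series c d A

/-- `G` is equal to its commutator subgroup. -/
def Perfect (G : Type) [Group G] : Prop := commutator G = ⊤

/-- The only vector fixed by `ρ(h)` for all `h` in `H` is zero. -/
def NoFixedVector {G V : Type} [Group G] [AddCommGroup V] [Module ℂ V] (ρ : Representation ℂ G V)
    (H : Subgroup G) : Prop :=
  ∀ v : V, (∀ h ∈ H, ρ h v = v) → v = 0

/-- The meromorphic continuation `f` of the Artin `L`-function of `ρ` is holomorphic and nonzero at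
`z`. -/
def RegularAt {K N V : Type} [Field K] [NumberField K] [Field N] [NumberField N] [Algebra K N]
    [IsGalois K N] [AddCommGroup V] [Module ℂ V] (ρ : Representation ℂ (N ≃ₐ[K] N) V) (z : ℂ) :
    Prop :=
  ∃ f : ℂ → ℂ, Meromorphic f ∧ (∀ s : ℂ, 1 < s.re → f s = artinFun ρ s) ∧ AnalyticAt ℂ f z ∧
    f z ≠ 0

/-- The group `Gal(F/E)` of the restrictions to `F` of the elements of `Gal(N/E)`. -/
noncomputable def gal {K N : Type} [Field K] [Field N] [Algebra K N] (E : IntermediateField K N)
    (F : Type) [Field F] [Algebra K F] [Algebra F N] [IsScalarTower K F N] [Normal K F] :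
    Subgroup (F ≃ₐ[K] F) :=
  E.fixingSubgroup.map (AlgEquiv.restrictNormalHom F)

/-- `Gal(F/E)` is solvable. -/
def SolvLayer {K N : Type} [Field K] [Field N] [Algebra K N] (E : IntermediateField K N)
    (F : Type) [Field F] [Algebra K F] [Algebra F N] [IsScalarTower K F N] [Normal K F] : Prop :=
  Group.IsSolvable (gal E F)

/-- `Gal(F/E)` is perfect and its nonabelian composition factors are alternating groups of degree
at least `n`. -/
def AltLayer (n : ℕ) {K N : Type} [Field K] [Field N] [Algebra K N] (E : IntermediateField K N)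
    (F : Type) [Field F] [Algebra K F] [Algebra F N] [IsScalarTower K F N] [Normal K F] : Prop :=
  Perfect (gal E F) ∧ AltFactors n (gal E F)

/-- `Gal(F/E)` has a subnormal series whose factors have the property `Fac`. -/
def FacLayer (c : ℕ → ℕ) (d : ℕ) {K N : Type} [Field K] [Field N] [Algebra K N]
    (E : IntermediateField K N) (F : Type) [Field F] [Algebra K F] [Algebra F N]
    [IsScalarTower K F N] [Normal K F] : Prop :=
  Series c d (⊥ : Subgroup (gal E F))

/-- Either `ζ_F / ζ_E` does not vanish at `z` (the orders `a` of `F` and `b` of `E` at `z` agree), or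
`Gal(F/E)` has a subnormal series whose factors are alternating groups of degree `m` such that the
order `a - b` of `ζ_F / ζ_E` is smaller than `c m`, or quotients of `SL_m(q)`, where `m` is at least
the characteristic, such that `6 * (a - b) < q ^ (m - 1)`, or `Gal(F/E)` is perfect, its nonabelian composition factors are
alternating of degree at least `n ≥ 8`, and `a - b` is smaller than `c n` or `a` is smaller than
`beta n`. -/
def Small (c : ℕ → ℕ) {K N : Type} [Field K] [Field N] [Algebra K N]
    (E : IntermediateField K N) (F : Type) [Field F] [Algebra K F] [Algebra F N]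
    [IsScalarTower K F N] [Normal K F] (a b : ℕ) : Prop :=
  a = b ∨ FacLayer c (a - b) E F ∨ ∃ n, 8 ≤ n ∧ AltLayer n E F ∧ (a < b + c n ∨ a < beta n)

/-- `ζ_L / ζ_(L ∩ F)` is holomorphic at `z` for all fields `L` between `K` and `N`. -/
def Hol {K N : Type} [Field K] [NumberField K] [Field N] [NumberField N] [Algebra K N]
    (F : IntermediateField K N) (z : ℂ) : Prop :=
  ∀ (L : IntermediateField K N) (l m : ℕ), Ord (L ⊓ F : IntermediateField K N) z l →
    Ord L z m → l ≤ m

/-- `L(s, ρ)` is holomorphic and nonzero at `z` for every `ρ` without nonzero vectors fixed by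
`Gal(N/F)`, the orders of `L` and `L ∩ F` are equal, and `ζ_L / ζ_E` is holomorphic at `z` for all
`E ≤ L` if `Gal(F/K)` is solvable. -/
def Reg {K N : Type} [Field K] [NumberField K] [Field N] [NumberField N] [Algebra K N]
    [IsGalois K N] (F : IntermediateField K N) (z : ℂ) : Prop :=
  (∀ {V : Type} [AddCommGroup V] [Module ℂ V] [FiniteDimensional ℂ V]
    (ρ : Representation ℂ (N ≃ₐ[K] N) V), NoFixedVector ρ F.fixingSubgroup → RegularAt ρ z) ∧
  (∀ (L : IntermediateField K N) (m : ℕ),
    Ord L z m ↔ Ord (L ⊓ F : IntermediateField K N) z m) ∧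
  (Group.IsSolvable (F ≃ₐ[K] F) → ∀ (E L : IntermediateField K N) (l m : ℕ), E ≤ L →
    Ord E z l → Ord L z m → l ≤ m)

theorem fac_gp {d : ℕ} {X : Type} [Group X] [Finite X] (h : Fac Pool.Agent.Helper81.OT.rc d X) :
    Pool.Agent.Helper81.TW.Gp d X := by
  rcases h with ⟨m, h1, ⟨κ⟩⟩ | ⟨m, k, i1, i2, h1, h2, f, hf⟩
  · exact (Pool.Agent.Helper81.TW.gp_alt h1).congr κ
  · exact (Pool.Agent.Helper94.GX.gap6_sl m k h1 d h2).surj f hf

theorem ser_gp {d : ℕ} {G : Type} [Group G] [Finite G] {A : Subgroup G}
    (h : Series Pool.Agent.Helper81.OT.rc d A) : Pool.Agent.Helper81.TW.SerGp d A := by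
  induction h with
  | top => exact .top
  | step _ hAB hA hF ih => exact .step ih hAB hA (fac_gp hF)

theorem result :
    (∀ (F : Type) [Field F] [NumberField F] (z : ℂ), ∃! m, Ord F z m) ∧
    ∃ c : ℕ → ℕ, Tendsto (fun n => (c n : ℝ) / n) atTop (𝓝 1) ∧ (∀ n, 8 ≤ n → n ≤ 8 * c n + 5) ∧
    ∀ {K N : Type} [Field K] [NumberField K] [Field N] [NumberField N] [Algebra K N]
      [IsGalois K N] (r : ℕ) (F : Fin (r + 1) → IntermediateField K N) [∀ i, IsGalois K (F i)],
      Monotone F → F (Fin.last r) = ⊤ → ∀ (z : ℂ) (o : Fin (r + 1) → ℕ), (∀ i, Ord (F i) z (o i)) →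
      ((∀ i : Fin r, SolvLayer (F i.castSucc) (F i.succ) ∨
          Small c (F i.castSucc) (F i.succ) (o i.succ) (o i.castSucc)) → Hol (F 0) z) ∧
      ((∀ i : Fin r, Small c (F i.castSucc) (F i.succ) (o i.succ) (o i.castSucc)) →
        Reg (F 0) z) := by
  have hex : ∀ (F : Type) [Field F] [NumberField F], ∃ Z, Pool.Agent.Helper81.OT.IsZeta F Z :=
    fun F _ _ => Pool.Agent.Helper3.AR.zeta_entire Pool.Agent.Helper13.AR.hecke F
  have huniq : ∀ (F : Type) [Field F] [NumberField F] {Z W : ℂ → ℂ} (z : ℂ),
      Pool.Agent.Helper81.OT.IsZeta F Z → Pool.Agent.Helper81.OT.IsZeta F W →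
      analyticOrderAt Z z = analyticOrderAt W z := by
    intro F _ _ Z W z h1 h2
    rw [Pool.Agent.Helper81.OT.order_N (K := F) h1 z,
      Pool.Agent.Helper81.OT.order_N (K := F) h2 z]
  have hord : ∀ (F : Type) [Field F] [NumberField F] {Z : ℂ → ℂ} (z : ℂ) (m : ℕ),
      Pool.Agent.Helper81.OT.IsZeta F Z → (Ord F z m ↔ analyticOrderAt Z z = m) := by
    intro F _ _ Z z m h1
    constructor
    · rintro ⟨W, h2, h3, h4⟩
      rw [huniq F z h1 ⟨h2, h3⟩, h4]
    · intro h2
      exact ⟨Z, h1.1, h1.2, h2⟩
  refine ⟨?_, Pool.Agent.Helper81.OT.rc, Pool.Agent.Helper81.OT.rc_tendsto,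
    fun n hn => Pool.Agent.Helper81.OT.rc_explicit hn, ?_⟩
  · intro F _ _ z
    obtain ⟨Z, hZ⟩ := hex F
    refine ⟨_, (hord F z _ hZ).2 (Pool.Agent.Helper81.OT.order_N (K := F) hZ z), ?_⟩
    intro m hm
    have h1 := (hord F z m hZ).1 hm
    rw [Pool.Agent.Helper81.OT.order_N (K := F) hZ z] at h1
    exact_mod_cast h1.symm
  intro K N _ _ _ _ _ _ r F _ hF hlast z o ho
  obtain ⟨θ, hθ, h⟩ := Pool.Agent.Helper81.OT.exists_heil K N z
  have hsmall : ∀ i : Fin r, Small Pool.Agent.Helper81.OT.rc (F i.castSucc) (F i.succ) (o i.succ)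
      (o i.castSucc) → ∀ y, ∀ t ∈ Pool.Agent.Helper81.TW.gal (F i.castSucc) (F i.succ),
        Pool.Agent.Helper81.OT.psf (AlgEquiv.restrictNormalHom (F := K) (K₁ := N) (F i.succ)) θ
          (y * t) =
        Pool.Agent.Helper81.OT.psf (AlgEquiv.restrictNormalHom (F := K) (K₁ := N) (F i.succ)) θ
          y := by
    intro i hi
    obtain ⟨ZE, hE⟩ := hex (F i.castSucc)
    obtain ⟨ZF, hZF⟩ := hex (F i.succ)
    have ha := (hord _ z _ hZF).1 (ho i.succ)
    have hb := (hord _ z _ hE).1 (ho i.castSucc)
    have hle := hF (Fin.castSucc_le_succ i)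
    rcases hi with hi | hi | ⟨n, hn, ⟨hP, hG⟩, hz⟩
    · exact Pool.Agent.Helper81.TW.psf_const_zero _ _ hle hθ h hE hZF ha hb hi
    · exact Pool.Agent.Helper81.TW.psf_const_ser _ _ hle (r := o i.succ - o i.castSucc) (ser_gp hi) hθ
        h hE hZF ha hb (by omega)
    · have hcf : Pool.Agent.Helper3.Comp.CFH (Pool.Agent.Helper81.OT.PPalt n)
          (Pool.Agent.Helper81.TW.gal (F i.castSucc) (F i.succ)) ⊤ := by
        intro A B hA hAB hB hs hna
        obtain ⟨m, h1, h3⟩ := hG A B hAB hA hB hs hna
        exact ⟨m, by omega, h1, by omega, h3⟩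
      refine Pool.Agent.Helper81.TW.psf_const_gap _ _ hle (Pool.Agent.Helper81.OT.rc_gap n)
        (Pool.Agent.Helper81.OT.rc_le n) hn hcf hP hθ h hE hZF ha hb ?_
      rcases hz with hz | hz
      · rcases Nat.eq_zero_or_pos (Pool.Agent.Helper81.OT.rc n) with h0 | h0
        · have := Pool.Agent.Helper81.OT.rc_explicit hn
          omega
        · right
          exact ⟨o i.succ - o i.castSucc, by omega, by omega⟩
      · exact Or.inl hz
  constructor
  · intro hfree L l m hl hm
    obtain ⟨ZL, hL⟩ := hex L
    obtain ⟨ZM, hM⟩ := hex (L ⊓ F 0 : IntermediateField K N)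
    have h1 := Pool.Agent.Helper81.TW.chain_le F hF hlast hθ h
      (fun i => (hfree i).imp id (hsmall i)) L hL hM
    rw [(hord L z m hL).1 hm, (hord (L ⊓ F 0 : IntermediateField K N) z l hM).1 hl] at h1
    exact_mod_cast h1
  intro hall
  have heq : ∀ i : Fin (r + 1), o i = o 0 := by
    intro i
    induction i using Fin.induction with
    | zero => rfl
    | succ i ih =>
      obtain ⟨ZE, hE⟩ := hex (F i.castSucc)
      obtain ⟨ZF, hZF⟩ := hex (F i.succ)
      have h1 := Pool.Agent.Helper81.TW.incr_zero _ _ (hF (Fin.castSucc_le_succ i)) h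
        (hsmall i (hall i)) hE hZF ((hord _ z _ hZF).1 (ho i.succ))
        ((hord _ z _ hE).1 (ho i.castSucc))
      rw [h1, ih]
  obtain ⟨ZN, hN⟩ := hex N
  obtain ⟨ZE, hE⟩ := hex (F 0)
  obtain ⟨ZT, hT⟩ := hex (F (Fin.last r))
  have hNT : analyticOrderAt ZN z = analyticOrderAt ZT z := by
    rw [Pool.Agent.Helper81.OT.order_N (K := K) hN z,
      Pool.Agent.Helper81.OT.order_L (F (Fin.last r)) hT z, hlast,
      IntermediateField.fixingSubgroup_top]
  have hc : ∀ x, ∀ t ∈ (F 0).fixingSubgroup, θ (x * t) = θ x := by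
    refine Pool.Agent.Helper81.OT.heil_const_zero (F 0) hE hN z ?_ hθ h
    rw [hNT, (hord _ z _ hT).1 (ho (Fin.last r)), (hord _ z _ hE).1 (ho 0), heq]
  refine ⟨fun ρ hρ => ?_, fun L m => ?_, fun hs E L l m hEL hE' hL' => ?_⟩
  · exact Pool.Agent.Helper81.OT.concl_artin (F 0) z hθ h hc ρ hρ
  · obtain ⟨ZL, hL⟩ := hex L
    obtain ⟨ZM, hM⟩ := hex (L ⊓ F 0 : IntermediateField K N)
    rw [hord L z m hL, hord (L ⊓ F 0 : IntermediateField K N) z m hM,
      Pool.Agent.Helper81.OT.concl_L (F 0) z h hc L hL hM]
  · obtain ⟨ZA, hA⟩ := hex E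
    obtain ⟨ZB, hB⟩ := hex L
    rw [hord E z l hA] at hE'
    rw [hord L z m hB] at hL'
    have hs' : Group.IsSolvable (F 0 ≃ₐ[K] F 0) := hs
    have h1 := Pool.Agent.Helper81.OT.concl_pair (F 0) z hθ h hc E L hEL hA hB
    rw [hE', hL'] at h1
    exact_mod_cast h1

end Pool.Agent.Results.MP_9fc8a5_nt.LowOrder
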